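import Pool.Agent.Q203.CSG.Main

/-!
# Isomorphism of c.e. commutative semigroups is bounded by `E_min(α)`

For every `n`, isomorphism of `n`-generated c.e. commutative semigroups is computably reducible to
`E_min(ω ^ (n + 2))`, and isomorphism of all finitely generated c.e. commutative semigroups is
computably reducible to `E_min(ω ^ ω)`.
-/

set_option autoImplicit false

open Q203.CSG Ordinal

namespace Pool.Agent.Results.MP_00bf54_lc.BoundedByEMin

/-- Positive answers to both questions. Q1: for every `n` the isomorphism relation of `n`-generated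
c.e. commutative semigroups reduces to `E_min(ω ^ (n + 2))`. Q2: the isomorphism relation of
finitely generated c.e. commutative semigroups reduces to `E_min(ω ^ ω)`. Both hold for every
computable copy (with computable ranks) of the ordinals involved, and such copies exist. -/
theorem result :
    (∀ n : ℕ, (∃ c, IsCopy (ω ^ ((n + 2 : ℕ) : Ordinal.{0})) c) ∧
      ∀ c, IsCopy (ω ^ ((n + 2 : ℕ) : Ordinal.{0})) c → CRed (IsoN n) (EMin c)) ∧
    (∃ c, IsCopy (ω ^ ω) c) ∧ ∀ c, IsCopy (ω ^ ω) c → CRed IsoFG (EMin c) :=
  ⟨fun n => ⟨⟨_, copyN (n + 1)⟩, fun _ hc => isoN_le n hc⟩, ⟨_, copyO⟩, fun _ hc => isoFG_le hc⟩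

end Pool.Agent.Results.MP_00bf54_lc.BoundedByEMin
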